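import Pool.Agent.Helper96.CT.Asm4
import Pool.Agent.Helper73.CT.PQ
import Pool.Agent.Helper51.CT.GR
import Pool.Agent.Helper32.CT.EM
import Pool.Agent.Helper98.CT.HC
import Pool.Agent.Helper70.CT.KL
import Pool.Agent.Helper21.CT.DG
import Pool.Agent.Helper25.CT.SB
import Pool.Agent.Helper9.CT.CH
import Pool.Agent.Helper33.CT.HB
import Pool.Agent.Helper18.CT.NC
import Pool.Agent.Helper38.CT.NH

set_option autoImplicit false

open SimpleGraph

namespace Pool.Agent.Results.MP_5ec5e0_co.AllTrees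

/-- Both the graph and its complement are connected. -/
def TotallyConnected {V : Type*} (F : SimpleGraph V) : Prop :=
  F.Connected ∧ Fᶜ.Connected

/-- `c` is the connected Ramsey number of `G` and `H`: the least integer `k ≥ 4` such that for all
`N ≥ k` every totally connected graph `F` on `N` vertices contains a copy of `G` or has a
complement containing a copy of `H`. -/
def IsConnectedRamseyNumber {α β : Type*} (G : SimpleGraph α) (H : SimpleGraph β) (c : ℕ) : Prop :=
  IsLeast {k : ℕ | 4 ≤ k ∧ ∀ N, k ≤ N → ∀ F : SimpleGraph (Fin N), TotallyConnected F →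
    G.IsContained F ∨ H.IsContained Fᶜ} c

/-- `T` has a vertex `x` such that every connected set of vertices without `x` has at most `b`
elements, that is, every component of `T - x` has at most `b` vertices. -/
def Small {m : ℕ} (T : SimpleGraph (Fin m)) (b : ℕ) : Prop :=
  ∃ x : Fin m, ∀ B : Finset (Fin m), x ∉ B →
    (T.induce (B : Set (Fin m))).Connected → B.card ≤ b

/-- Bounds for the connected Ramsey number of an arbitrary tree `T` on `m ≥ 5` vertices and the
complete graph on `n ≥ 3` vertices. -/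
theorem result (m n : ℕ) (hm : 5 ≤ m) (hn : 3 ≤ n) (T : SimpleGraph (Fin m)) (hT : T.IsTree) :
    ∃ c, IsConnectedRamseyNumber T (⊤ : SimpleGraph (Fin n)) c ∧ c ≤ (m - 2) * (n - 1) + 1 ∧
      (7 ≤ m → (n - 1) * ((m - 1) / 3) + 1 ≤ c) ∧
      (∀ v, 3 ≤ (T.neighborSet v).ncard → ((T.neighborSet v).ncard - 1) * (n - 1) + 1 ≤ c) ∧
      (∀ b, Small T b → 2 * b + 3 ≤ m → (n - 1) * (m - 1 - 2 * b) + 1 ≤ c) ∧
      ∀ a, 2 ≤ a → ¬ Small T a → (n - 1) * a + 2 ≤ c :=
  Pool.Agent.Helper96.CT.trees_final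
    (Pool.Agent.Helper32.CT.st_EM Pool.Agent.Helper73.CT.st_PQ Pool.Agent.Helper51.CT.st_GR)
    Pool.Agent.Helper98.CT.st_HC Pool.Agent.Helper70.CT.st_KL Pool.Agent.Helper21.CT.st_DG
    Pool.Agent.Helper25.CT.st_SB Pool.Agent.Helper9.CT.st_CH Pool.Agent.Helper33.CT.st_HB
    Pool.Agent.Helper18.CT.st_NC Pool.Agent.Helper38.CT.st_NH m n hm hn T hT

end Pool.Agent.Results.MP_5ec5e0_co.AllTrees
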