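import Pool.Agent.Helper96.CT.Asm

set_option autoImplicit false

open SimpleGraph

namespace Pool.Agent.Results.MP_5ec5e0_co.PathComplete

/-- Both the graph and its complement are connected. -/
def TotallyConnected {V : Type*} (F : SimpleGraph V) : Prop :=
  F.Connected ∧ Fᶜ.Connected

/-- `c` is the connected Ramsey number of `G` and `H`: the least integer `k ≥ 4` such that for all
`N ≥ k` every totally connected graph `F` on `N` vertices contains a copy of `G` or has a
complement containing a copy of `H`. -/
def IsConnectedRamseyNumber {α β : Type*} (G : SimpleGraph α) (H : SimpleGraph β) (c : ℕ) : Prop :=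
  IsLeast {k : ℕ | 4 ≤ k ∧ ∀ N, k ≤ N → ∀ F : SimpleGraph (Fin N), TotallyConnected F →
    G.IsContained F ∨ H.IsContained Fᶜ} c

/-- The connected Ramsey number of the path on `m` vertices and the complete graph on `n` vertices
is `4` for `m ≤ 4` or `n ≤ 2` and `(n - 1) ⌊(m - 2)/2⌋ + 2 + (m mod 2)` for `m ≥ 5`, `n ≥ 3`. -/
theorem result (m n : ℕ) :
    IsConnectedRamseyNumber (pathGraph m) (⊤ : SimpleGraph (Fin n))
      (if m ≤ 4 ∨ n ≤ 2 then 4 else (n - 1) * ((m - 2) / 2) + 2 + m % 2) :=
  Pool.Agent.Helper96.CT.path_main m n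

end Pool.Agent.Results.MP_5ec5e0_co.PathComplete
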