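import Pool.Agent.Helper70.Cr.Lower

set_option autoImplicit false

open SimpleGraph Pool.Agent.Helper70.Cr

namespace Pool.Agent.Results.MP_5ec5e0_co.PathCycle

/-- Both the graph and its complement are connected. -/
def TotallyConnected {V : Type*} (F : SimpleGraph V) : Prop :=
  F.Connected ∧ Fᶜ.Connected

/-- `c` is the connected Ramsey number of `G` and `H`: the least integer `k ≥ 4` such that for all
`N ≥ k` every totally connected graph `F` on `N` vertices contains a copy of `G` or has a
complement containing a copy of `H`. -/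
def IsConnectedRamseyNumber {α β : Type*} (G : SimpleGraph α) (H : SimpleGraph β) (c : ℕ) : Prop :=
  IsLeast {k : ℕ | 4 ≤ k ∧ ∀ N, k ≤ N → ∀ F : SimpleGraph (Fin N), TotallyConnected F →
    G.IsContained F ∨ H.IsContained Fᶜ} c

/-- The connected Ramsey number of the path on `m` vertices and the cycle on `n ≥ 3` vertices is
`4` for `m ≤ 4` and `max (n - 1 + ⌊m/2⌋) (m - 2 + ⌈n/2⌉)` for `m ≥ 5`. -/
theorem result (m n : ℕ) (hn : 3 ≤ n) :
    IsConnectedRamseyNumber (pathGraph m) (cycleGraph n)
      (if m ≤ 4 then 4 else max (n - 1 + m / 2) (m - 2 + (n + 1) / 2)) := by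
  by_cases hm : m ≤ 4
  · rw [if_pos hm]
    refine ⟨⟨le_rfl, fun N hN F hF => Or.inl (four hN hm F hF.1 hF.2)⟩, fun k hk => hk.1⟩
  · rw [if_neg hm]
    refine ⟨⟨?_, ?_⟩, ?_⟩
    · rw [le_max_iff]
      right
      omega
    · intro N hN F hF
      rw [max_le_iff] at hN
      exact upper_contained hn hN.1 hN.2 (by omega) F hF.1
    · intro k hk
      obtain ⟨hk4, hk⟩ := hk
      have hno : ∀ N, Witness N m n → N < k := by
        rintro N ⟨F, h1, h2, h3, h4⟩
        by_contra hcon
        rcases hk N (by omega) F ⟨h1, h2⟩ with h | h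
        · exact h3 h
        · exact h4 h
      rw [max_le_iff]
      obtain ⟨n, rfl⟩ : ∃ n', n = n' + 3 := ⟨n - 3, by omega⟩
      have hB : m - 2 + (n + 3 + 1) / 2 ≤ k := by
        have h1 := @witnessB (m - 2) ((n + 3 + 1) / 2 - 1) n (by omega) (by omega) (by omega)
        have h2 : m - 2 + 2 = m := by omega
        rw [h2] at h1
        have := hno _ h1
        omega
      refine ⟨?_, hB⟩
      rcases Nat.eq_or_lt_of_le (show 5 ≤ m by omega) with h5 | h6
      · subst h5
        rcases Nat.eq_zero_or_pos n with rfl | hn0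
        · omega
        · have := hno _ (witnessC (n := n) hn0)
          omega
      · have := hno _ (@witnessA (m / 2 - 1) n (by omega) m (by omega))
        omega

end Pool.Agent.Results.MP_5ec5e0_co.PathCycle
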