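import Pool.Agent.Helper96.CT.Asm

set_option autoImplicit false

open SimpleGraph

namespace Pool.Agent.Results.MP_5ec5e0_co.StarComplete

/-- Both the graph and its complement are connected. -/
def TotallyConnected {V : Type*} (F : SimpleGraph V) : Prop :=
  F.Connected ∧ Fᶜ.Connected

/-- `c` is the connected Ramsey number of `G` and `H`: the least integer `k ≥ 4` such that for all
`N ≥ k` every totally connected graph `F` on `N` vertices contains a copy of `G` or has a
complement containing a copy of `H`. -/
def IsConnectedRamseyNumber {α β : Type*} (G : SimpleGraph α) (H : SimpleGraph β) (c : ℕ) : Prop :=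
  IsLeast {k : ℕ | 4 ≤ k ∧ ∀ N, k ≤ N → ∀ F : SimpleGraph (Fin N), TotallyConnected F →
    G.IsContained F ∨ H.IsContained Fᶜ} c

/-- The connected Ramsey number of the star with `s` edges and the complete graph on `n` vertices
is `4` for `s ≤ 2` or `n ≤ 2`, and for `n ≥ 3` it is `2 n` for `s = 3` and `(s - 1)(n - 1) + 1`
for `s ≥ 4`. -/
theorem result (s n : ℕ) :
    IsConnectedRamseyNumber (completeBipartiteGraph (Fin 1) (Fin s)) (⊤ : SimpleGraph (Fin n))
      (if s ≤ 2 ∨ n ≤ 2 then 4 else if s = 3 then 2 * n else (s - 1) * (n - 1) + 1) :=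
  Pool.Agent.Helper96.CT.star_main s n

end Pool.Agent.Results.MP_5ec5e0_co.StarComplete
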